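import Mathlib
import Pool.Agent.Lib.MP_b7b3bc_co.Order

set_option autoImplicit false

namespace Pool.Agent.Results.MP_b7b3bc_co.InfiniteSets

open Pool.Agent.Lib.MP_b7b3bc_co

/-- `π` is a doubly infinite permutation of the set `S` of integers: a bijection from `ℤ`
onto `S`. -/
def IsDoublyInfinitePermutation (S : Set ℤ) (π : ℤ → ℤ) : Prop :=
  Set.BijOn π Set.univ S

/-- The sequence `π` contains a `k`-AP: there are positions `i 0 < i 1 < ... < i (k-1)` and an
integer `d ≠ 0` such that `π (i (j+1)) - π (i j) = d` for all `j` with `j + 1 < k`. -/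
def ContainsAP (π : ℤ → ℤ) (k : ℕ) : Prop :=
  ∃ (i : ℕ → ℤ) (d : ℤ), d ≠ 0 ∧
    ∀ j : ℕ, j + 1 < k → i j < i (j + 1) ∧ π (i (j + 1)) - π (i j) = d

/-- Radii adapted to an infinite set: every shell contains an element of the set. -/
theorem exists_radii_of_infinite {S : Set ℤ} (hS : S.Infinite) :
    ∃ b : ℕ → ℤ, Radii b ∧ ∀ n, ∃ s ∈ S, |s| = b n + 1 := by
  classical
  have hbig : ∀ B : ℤ, ∃ s ∈ S, B < |s| := by
    intro B
    by_contra hc
    push Not at hc
    exact hS ((Set.finite_Icc (-B) B).subset fun s hs => abs_le.1 (hc s hs))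
  have hstep : ∀ A : {A : ℤ // 0 < A}, ∃ B : {A : ℤ // 0 < A},
      7 * A.1 < B.1 ∧ (∀ x : ℤ, B.1 < |x| → Late A.1 x) ∧ ∃ s ∈ S, |s| = B.1 + 1 := by
    rintro ⟨A, hA⟩
    obtain ⟨c, hc1, hc2⟩ := exists_late_bound hA
    obtain ⟨s, hs, hs2⟩ := hbig (c + 1)
    refine ⟨⟨|s| - 1, by linarith⟩, ?_, ?_, s, hs, ?_⟩
    · show 7 * A < |s| - 1
      linarith
    · intro x hx
      have hx' : |s| - 1 < |x| := hx
      exact hc2 x (by linarith)
    · show |s| = |s| - 1 + 1
      ring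
  choose F hF using hstep
  obtain ⟨s0, hs0, hs1⟩ := hbig 1
  let G : ℕ → {A : ℤ // 0 < A} := fun n => Nat.rec ⟨|s0| - 1, by linarith⟩ (fun _ A => F A) n
  refine ⟨fun n => (G n).1, ⟨fun k => (G k).2, fun k => (hF (G k)).1,
    fun k x hx => (hF (G k)).2.1 x hx⟩, ?_⟩
  intro n
  rcases n with _ | n
  · exact ⟨s0, hs0, by show |s0| = |s0| - 1 + 1; ring⟩
  · exact (hF (G n)).2.2

/-- Every infinite set of integers has a doubly infinite permutation that avoids 4-APs; the
case `S = Set.univ` is the question. -/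
theorem result (S : Set ℤ) (hS : S.Infinite) :
    ∃ π : ℤ → ℤ, IsDoublyInfinitePermutation S π ∧ ¬ ContainsAP π 4 := by
  obtain ⟨b, hb, hbS⟩ := exists_radii_of_infinite hS
  obtain ⟨g, hg⟩ := exists_gen hb
  have hne : Nonempty S := hS.nonempty.to_subtype
  have hshell : ∀ n : ℕ, ∃ s : S, g s = n := by
    intro n
    obtain ⟨s, hs, hs'⟩ := hbS n
    have hp := hb.pos n
    refine ⟨⟨s, hs⟩, ?_⟩
    have h1 : n ≤ g s := hg.lower n s (by rw [hs']; linarith)
    have h2 : ¬ (n + 1 ≤ g s) := by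
      intro h
      have := hg.upper n s h
      rw [hs'] at this
      linarith
    show g s = n
    omega
  obtain ⟨f, hf, hlt⟩ := exists_enumeration (α := S) (fun x y => Lt g x.1 y.1)
    (fun a => lt_irrefl' g a.1) (fun a b c => lt_trans' g a.1 b.1 c.1)
    (fun x y h => lt_total' g x.1 y.1 (fun h' => h (Subtype.ext h')))
    (fun x y => ((lt_interval_finite hg x.1 y.1).preimage
      (Subtype.val_injective.injOn)).subset fun t ht => ht)
    (fun x => by
      obtain ⟨y, hy⟩ := hshell (2 * (g x.1 + 1))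
      refine ⟨y, ?_⟩
      have he : Even (g y.1) := by rw [hy]; exact even_two_mul _
      rcases Nat.even_or_odd (g x.1) with hx | hx
      · exact Or.inr (Or.inl ⟨hx, he, Or.inl (by omega)⟩)
      · exact Or.inl ⟨hx, he⟩)
    (fun x => by
      obtain ⟨y, hy⟩ := hshell (2 * (g x.1 + 1) + 1)
      refine ⟨y, ?_⟩
      have he : Odd (g y.1) := by rw [hy]; exact odd_two_mul_add_one _
      rcases Nat.even_or_odd (g x.1) with hx | hx
      · exact Or.inl ⟨he, hx⟩
      · exact Or.inr (Or.inr ⟨he, hx, Or.inl (by omega)⟩))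
  refine ⟨fun i => (f i).1, ⟨fun i _ => (f i).2, fun i _ j _ h => hf.1 (Subtype.ext h),
    fun s hs => ?_⟩, ?_⟩
  · obtain ⟨i, hi⟩ := hf.2 ⟨s, hs⟩
    exact ⟨i, trivial, by show (f i).1 = s; rw [hi]⟩
  · rintro ⟨i, d, -, hid⟩
    obtain ⟨l0, e0⟩ := hid 0 (by norm_num)
    obtain ⟨l1, e1⟩ := hid 1 (by norm_num)
    obtain ⟨l2, e2⟩ := hid 2 (by norm_num)
    have r1 := hlt _ _ l0
    have r2 := hlt _ _ l1
    have r3 := hlt _ _ l2
    simp only [zero_add, Nat.reduceAdd] at e0 e1 e2 r1 r2 r3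
    have q1 : (f (i 1)).1 = (f (i 0)).1 + d := by linarith
    have q2 : (f (i 2)).1 = (f (i 0)).1 + 2 * d := by linarith
    have q3 : (f (i 3)).1 = (f (i 0)).1 + 3 * d := by linarith
    rw [q1] at r1 r2
    rw [q2] at r2 r3
    rw [q3] at r3
    exact no_four hb hg r1 r2 r3

end Pool.Agent.Results.MP_b7b3bc_co.InfiniteSets
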